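import Mathlib
import Pool.Agent.H26R2.Perf.Main
import Pool.Agent.H26R2.Kadison.Local

/-!
Finitely generated perfect projective modules over integral group rings.
-/

set_option autoImplicit false

namespace Pool.Agent.Results.MP_79a731_al.KernelsWithoutQ

open Pool.Agent.H26R2.Perf (NoPerfect DetZ ZSeries ResFinite NoQ)
open Pool.Agent.H26R2.Kadison (Source)

universe v w

/-- `NoPerfect G`: all finitely generated projective `ℤ[G]`-modules `P` with `IP = P` are zero.
`DetZ N`, for `N` normal in `G`: idempotent square matrices over `ℤ[G]` that vanish over `ℤ[G/N]`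
vanish; that is, finitely generated projective `ℤ[G]`-modules `P` with `ℤ[G/N] ⊗ P = 0` are zero.
`NoQ A`: for every sequence in `A` with `b (i+1) ^ (i+1) = b i` the element `b 0` has finite order;
for torsion-free `A` this says that `A` has no subgroup isomorphic to the additive group of `ℚ`.
`ZSeries N`: `N` has a finite series of normal subgroups of `G` whose factors satisfy `NoQ` or are
such that every nontrivial finitely generated subgroup has a nonzero homomorphism to `ℚ`.

(1) If `N` is normal in `G` and `ZSeries N`, then `DetZ N`, and `NoPerfect (G/N)` implies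
`NoPerfect G`, for arbitrary `G/N`.
(2) `NoPerfect G` holds if `NoPerfect H` holds for all finitely generated subgroups `H` of `G`.
(3) `ZSeries G` implies `NoPerfect G`.
(4) `NoQ A` holds if `A` is residually finite, or finitely generated and linear over a field of
characteristic zero, or virtually residually `p` for infinitely many primes `p`, or satisfies the
ascending chain condition on cyclic subgroups. -/
theorem result :
    (∀ (G : Type v) [Group G] (N : Subgroup G) [N.Normal], ZSeries N →
      DetZ N ∧ (NoPerfect (G ⧸ N) → NoPerfect G)) ∧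
    (∀ (G : Type v) [Group G], (∀ H : Subgroup G, H.FG → NoPerfect H) → NoPerfect G) ∧
    (∀ (G : Type v) [Group G], ZSeries (⊤ : Subgroup G) → NoPerfect G) ∧
    (∀ (A : Type v) [Group A], (ResFinite A ∨ Source.{v, w} A) → NoQ A) := by
  refine ⟨?_, ?_, ?_, ?_⟩
  · intro G _ N _ hN
    exact ⟨Pool.Agent.H26R2.Perf.detZ_of_series N hN,
      Pool.Agent.H26R2.Perf.noPerfect_of_detZ N (Pool.Agent.H26R2.Perf.detZ_of_series N hN)⟩
  · intro G _ h
    exact Pool.Agent.H26R2.Perf.noPerfect_local h
  · intro G _ h
    exact Pool.Agent.H26R2.Perf.noPerfect_of_top h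
  · rintro A _ (h | h)
    · exact Pool.Agent.H26R2.Perf.noQ_of_resFinite h
    · exact Pool.Agent.H26R2.Perf.noQ_of_chainFin
        (Pool.Agent.H26R2.Kadison.chainFin_of_source A h)

end Pool.Agent.Results.MP_79a731_al.KernelsWithoutQ
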